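import Pool.Agent.H17.LF.FamP

/-!
# Lang's lower bound for rational linear forms fails for `n = 4` terms, and for every `ε < 2 / 13`

The library disproves Lang's inequality for every number `n ≥ 5` of terms and every `ε < 1 / 14`.
Here `n = 4` is reached, and `2 / 13` replaces `1 / 14`.  The new family has four terms and small
numbers: `Λ = ∑ b_j log ((t + u_j) / (t - u_j))`, `u = (8, 5, 3, 7)`,
`b = (1001 t² - 59584, -1001 t² + 40425, -1001 t² - 1911, 22880)`; this gives `ε < 1 / 14`.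
For `t = 7 (2 r² + 1)`, `r² + 1 = 2 s²` (Pell) the number `(t + 7) / (t - 7)` is twice a square, so that
`r / s` of height about `√t` can replace it; the multiple of `log 2` is absorbed by the other terms.
-/

set_option autoImplicit false

open Finset Filter

namespace Pool.Agent.Results.MP_90c6bd_nt.FourTerms

/-- `Λ = ∑ b_j log a_j` -/
noncomputable def form {n : ℕ} (a : Fin n → ℚ) (b : Fin n → ℤ) : ℝ :=
  ∑ j, ((b j : ℤ) : ℝ) * Real.log ((a j : ℚ) : ℝ)

/-- the product of all `B_j = max (|b_j|, 1)` and all `A_j ^ 2`, where `A_j` is the maximum of the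
numerator and the denominator of `a_j > 0` -/
noncomputable def size {n : ℕ} (a : Fin n → ℚ) (b : Fin n → ℤ) : ℝ :=
  (∏ j, ((max (b j).natAbs 1 : ℕ) : ℝ)) *
    (∏ j, (((max (a j).num.natAbs (a j).den : ℕ)) : ℝ) ^ 2)

/-- `B = max B_j` -/
noncomputable def maxB {n : ℕ} (b : Fin n → ℤ) : ℝ :=
  ((Finset.univ.sup fun j => max (b j).natAbs 1 : ℕ) : ℝ)

/-- For every `n ≥ 4`:
(1) there is `K` such that there are positive rational numbers `a_j` and nonzero integers `b_j` with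
arbitrarily large `X = ∏ B_j A_j ^ 2`, with `Λ ≠ 0` and `|Λ| ≤ K B / X ^ (15 / 13)`;
(2) for all `ε < 2 / 13` and `C > 0` there are positive rational numbers `a_j` and nonzero integers `b_j`
with arbitrarily large `X`, with `Λ ≠ 0` and `|Λ| < C ^ n B / X ^ (1 + ε)`. -/
theorem result (n : ℕ) (hn : 4 ≤ n) :
    (∃ K : ℝ, ∀ H : ℝ, ∃ (a : Fin n → ℚ) (b : Fin n → ℤ), (∀ j, 0 < a j) ∧ (∀ j, b j ≠ 0) ∧
      H < size a b ∧ form a b ≠ 0 ∧ |form a b| ≤ K * maxB b / size a b ^ (15 / 13 : ℝ)) ∧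
    (∀ ε C H : ℝ, ε < 2 / 13 → 0 < C → ∃ (a : Fin n → ℚ) (b : Fin n → ℤ), (∀ j, 0 < a j) ∧
      (∀ j, b j ≠ 0) ∧ H < size a b ∧ form a b ≠ 0 ∧
      |form a b| < C ^ n * maxB b / size a b ^ (1 + ε)) := by
  have main : ∀ H : ℝ, ∃ (a : Fin n → ℚ) (b : Fin n → ℤ), (∀ j, 0 < a j) ∧ (∀ j, b j ≠ 0) ∧
      H < size a b ∧ form a b ≠ 0 ∧
      |form a b| ≤ 10 ^ 103 * maxB b / size a b ^ (15 / 13 : ℝ) := by
    intro H
    obtain ⟨k, rfl⟩ : ∃ k, n = 4 + k := ⟨n - 4, by omega⟩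
    obtain ⟨t, r, s, ht, hH, hs, hsr, hrs, htr⟩ := Pool.Agent.H17.LF.P.exists_large H
    obtain ⟨h1, h2, h3, h4, h5⟩ := Pool.Agent.H17.LF.P.core k t r s ht hs hsr hrs htr
    exact ⟨Pool.Agent.H17.LF.P.aP k t r s, Pool.Agent.H17.LF.P.bP k t, h1, h2,
      lt_of_lt_of_le hH h4, h3, h5⟩
  refine ⟨⟨_, main⟩, fun ε C H hε hC => ?_⟩
  have hlim := (tendsto_rpow_atTop (show (0 : ℝ) < 2 / 13 - ε by linarith)).eventually_gt_atTop
    (10 ^ 103 / C ^ n)
  obtain ⟨T, hT⟩ := Filter.eventually_atTop.1 hlim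
  obtain ⟨a, b, h1, h2, h3, h4, h5⟩ := main (max (max H T) 1)
  have hX1 : 1 < size a b := lt_of_le_of_lt (le_max_right _ _) h3
  have hXH : H < size a b := lt_of_le_of_lt ((le_max_left _ _).trans (le_max_left _ _)) h3
  have hXT : T < size a b := lt_of_le_of_lt ((le_max_right _ _).trans (le_max_left _ _)) h3
  have hX0 : 0 < size a b := one_pos.trans hX1
  refine ⟨a, b, h1, h2, hXH, h4, lt_of_le_of_lt h5 ?_⟩
  have h6 := hT _ hXT.le
  have hCn : 0 < C ^ n := by positivity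
  rw [div_lt_iff₀ hCn] at h6
  have hB : 0 < maxB b := by
    have e0 : 1 ≤ (Finset.univ.sup fun j => max (b j).natAbs 1) := by
      have e1 : max (b ⟨0, by omega⟩).natAbs 1 ≤ (Finset.univ.sup fun j => max (b j).natAbs 1) :=
        Finset.le_sup (f := fun j => max (b j).natAbs 1) (Finset.mem_univ _)
      exact le_trans (le_max_right _ _) e1
    unfold maxB
    exact_mod_cast e0
  have e1 : size a b ^ (15 / 13 : ℝ) = size a b ^ (1 + ε) * size a b ^ (2 / 13 - ε) := by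
    rw [← Real.rpow_add hX0]
    congr 1
    ring
  have p1 : 0 < size a b ^ (1 + ε) := Real.rpow_pos_of_pos hX0 _
  have p2 : 0 < size a b ^ (15 / 13 : ℝ) := Real.rpow_pos_of_pos hX0 _
  rw [div_lt_div_iff₀ p2 p1, e1]
  calc 10 ^ 103 * maxB b * size a b ^ (1 + ε)
      < (size a b ^ (2 / 13 - ε) * C ^ n) * maxB b * size a b ^ (1 + ε) := by gcongr
    _ = C ^ n * maxB b * (size a b ^ (1 + ε) * size a b ^ (2 / 13 - ε)) := by ring

end Pool.Agent.Results.MP_90c6bd_nt.FourTerms
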