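import Pool.Agent.H17.LL.Est

/-!
# Lang's lower bound for linear forms in two logarithms: a loss of size `log X / log log X`

The library disproves Lang's inequality `|Λ| > C ^ n B / X ^ (1 + ε)`, `X = ∏ B_j A_j ^ 2`, for `n ≥ 5`
terms and `ε < 1 / 14`.  For two, three and four terms we show that the inequality without loss
(`ε = 0`) fails, and that the loss has to be at least `log X / log log X`.
The linear forms are `p log ((p + 2) / p) - 2 log (a / b)`, with
`(p + 2) ^ p b ^ 2 = p ^ p a ^ 2 + 2`.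
-/

set_option autoImplicit false

open Finset Filter

namespace Pool.Agent.Results.MP_90c6bd_nt.LogarithmicLoss

/-- `Λ = ∑ b_j log a_j` -/
noncomputable def form {n : ℕ} (a : Fin n → ℚ) (b : Fin n → ℤ) : ℝ :=
  ∑ j, ((b j : ℤ) : ℝ) * Real.log ((a j : ℚ) : ℝ)

/-- `X`: the product of all `B_j = max (|b_j|, 1)` and all `A_j ^ 2`, where `A_j` is the maximum of the
numerator and the denominator of `a_j > 0` -/
noncomputable def size {n : ℕ} (a : Fin n → ℚ) (b : Fin n → ℤ) : ℝ :=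
  (∏ j, ((max (b j).natAbs 1 : ℕ) : ℝ)) *
    (∏ j, (((max (a j).num.natAbs (a j).den : ℕ)) : ℝ) ^ 2)

/-- `B = max B_j` -/
noncomputable def maxB {n : ℕ} (b : Fin n → ℤ) : ℝ :=
  ((Finset.univ.sup fun j => max (b j).natAbs 1 : ℕ) : ℝ)

theorem height_div_le (u v : ℕ) (hu : 0 < u) (hv : 0 < v) (M : ℕ) (h1 : u ≤ M) (h2 : v ≤ M) :
    max (((u : ℚ) / v).num.natAbs) (((u : ℚ) / v).den) ≤ M := by
  have e : ((u : ℚ) / v) = Rat.divInt (u : ℤ) (v : ℤ) := by
    rw [Rat.divInt_eq_div]; simp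
  have hn : (((u : ℚ) / v).num) ∣ (u : ℤ) := by
    rw [e]; exact Rat.num_dvd _ (by exact_mod_cast hv.ne')
  have hd : ((((u : ℚ) / v).den : ℕ) : ℤ) ∣ (v : ℤ) := by
    rw [e]; exact Rat.den_dvd _ _
  have hn' : (((u : ℚ) / v).num.natAbs) ∣ u := by
    have := Int.natAbs_dvd_natAbs.2 hn
    simpa using this
  have hd' : (((u : ℚ) / v).den) ∣ v := by exact_mod_cast hd
  exact max_le ((Nat.le_of_dvd hu hn').trans h1) ((Nat.le_of_dvd hv hd').trans h2)

theorem one_le_height (q : ℚ) : 1 ≤ max q.num.natAbs q.den := le_trans q.pos (le_max_right _ _)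

/-- the two rational numbers, followed by ones -/
def aP (k p c d : ℕ) : Fin (2 + k) → ℚ :=
  Fin.append (![((p + 2 : ℕ) : ℚ) / (p : ℕ), (d : ℚ) / c]) (fun _ => 1)

/-- the exponents, followed by ones -/
def bP (k p : ℕ) : Fin (2 + k) → ℤ := Fin.append (![(p : ℤ), 2]) (fun _ => 1)

theorem formP (k p c d : ℕ) :
    form (aP k p c d) (bP k p) = (p : ℝ) * Real.log (((p : ℝ) + 2) / p) + 2 * Real.log ((d : ℝ) / c) := by
  unfold form
  rw [Fin.sum_univ_add]
  simp only [aP, bP, Fin.append_left, Fin.append_right]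
  simp [Fin.sum_univ_two]

theorem sizeP (k p c d : ℕ) : size (aP k p c d) (bP k p) =
    ((max p 1 : ℕ) : ℝ) * 2 *
      (((max (((p + 2 : ℕ) : ℚ) / (p : ℕ)).num.natAbs (((p + 2 : ℕ) : ℚ) / (p : ℕ)).den : ℕ) : ℝ) ^ 2 *
        ((max ((d : ℚ) / c).num.natAbs ((d : ℚ) / c).den : ℕ) : ℝ) ^ 2) := by
  unfold size
  rw [Fin.prod_univ_add, Fin.prod_univ_add
    (f := fun j => (((max (aP k p c d j).num.natAbs (aP k p c d j).den : ℕ)) : ℝ) ^ 2)]
  simp only [aP, bP, Fin.append_left, Fin.append_right]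
  simp [Fin.prod_univ_two]

theorem main (k : ℕ) (H : ℝ) : ∃ (a : Fin (2 + k) → ℚ) (b : Fin (2 + k) → ℤ), (∀ j, 0 < a j) ∧
    (∀ j, b j ≠ 0) ∧ H < size a b ∧ form a b ≠ 0 ∧
    |form a b| ≤ 54 * maxB b / size a b * (Real.log (Real.log (size a b)) / Real.log (size a b)) := by
  obtain ⟨N, hN⟩ := exists_nat_gt H
  set j := N + 4 with hjdef
  set p := 2 * j + 1 with hpdef
  have hp9 : 9 ≤ p := by omega
  have hpodd : Odd p := ⟨j, rfl⟩
  obtain ⟨c, d, hd, hdc, heq, hcs⟩ := Pool.Agent.H17.LL.sol p hpodd j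
  rw [← hpdef] at heq
  have hc : 1 ≤ c := hd.trans hdc
  have hp0 : 0 < p := by omega
  have hb := Pool.Agent.H17.LL.form_bounds p p c d hp0 hc hd heq
  have hpR : (0 : ℝ) < p := by exact_mod_cast hp0
  -- heights
  have h1 := height_div_le (p + 2) p (by omega) hp0 (p + 2) le_rfl (by omega)
  have h2 := height_div_le d c hd hc c hdc le_rfl
  have h1' := one_le_height (((p + 2 : ℕ) : ℚ) / (p : ℕ))
  have h2' := one_le_height ((d : ℚ) / c)
  set u := max (((p + 2 : ℕ) : ℚ) / (p : ℕ)).num.natAbs (((p + 2 : ℕ) : ℚ) / (p : ℕ)).den with hu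
  set v := max ((d : ℚ) / c).num.natAbs ((d : ℚ) / c).den with hv
  have hS : size (aP k p c d) (bP k p) = 2 * p * ((u : ℝ) ^ 2 * (v : ℝ) ^ 2) := by
    rw [sizeP, max_eq_left (by omega : 1 ≤ p)]; ring
  have u1 : (1 : ℝ) ≤ u := by exact_mod_cast h1'
  have v1 : (1 : ℝ) ≤ v := by exact_mod_cast h2'
  have u2 : (u : ℝ) ≤ p + 2 := by exact_mod_cast h1
  have v2 : (v : ℝ) ≤ c := by exact_mod_cast h2
  have hu1 : (1 : ℝ) ≤ (u : ℝ) ^ 2 := one_le_pow₀ u1
  have hv1 : (1 : ℝ) ≤ (v : ℝ) ^ 2 := one_le_pow₀ v1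
  have hX0 : 2 * (p : ℝ) ≤ size (aP k p c d) (bP k p) := by
    rw [hS]
    have : (1 : ℝ) ≤ (u : ℝ) ^ 2 * (v : ℝ) ^ 2 := one_le_mul_of_one_le_of_one_le hu1 hv1
    nlinarith
  have hX : size (aP k p c d) (bP k p) ≤ 2 * p * ((p : ℝ) + 2) ^ 2 * (c : ℝ) ^ 2 := by
    rw [hS, mul_assoc (2 * (p : ℝ))]
    gcongr
  have hest := Pool.Agent.H17.LL.est p j c hp9 hpdef.symm hc (by rw [hpdef] at hcs ⊢; exact hcs) _ hX0 hX
  have hXpos : 0 < size (aP k p c d) (bP k p) := by linarith
  refine ⟨aP k p c d, bP k p, ?_, ?_, ?_, ?_, ?_⟩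
  · intro i
    refine Fin.addCases (fun i => ?_) (fun i => ?_) i
    · rw [aP, Fin.append_left]
      fin_cases i
      · simp only [Fin.zero_eta, Matrix.cons_val_zero]
        positivity
      · have : (0 : ℚ) < (d : ℚ) / c := by
          have e1 : (0 : ℚ) < d := by exact_mod_cast hd
          have e2 : (0 : ℚ) < c := by exact_mod_cast hc
          positivity
        simpa using this
    · rw [aP, Fin.append_right]; norm_num
  · intro i
    refine Fin.addCases (fun i => ?_) (fun i => ?_) i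
    · rw [bP, Fin.append_left]
      fin_cases i
      · simpa using hp0.ne'
      · simp
    · rw [bP, Fin.append_right]; norm_num
  · have e1 : (N : ℝ) ≤ p := by exact_mod_cast (by omega : N ≤ p)
    linarith
  · rw [formP]; exact hb.1.ne'
  · rw [formP, abs_of_pos hb.1]
    refine hb.2.trans (hest.trans ?_)
    have hmax : (p : ℝ) ≤ maxB (bP k p) := by
      have e1 : max (bP k p (Fin.castAdd k 0)).natAbs 1 ≤
          (Finset.univ.sup fun j => max (bP k p j).natAbs 1) :=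
        Finset.le_sup (f := fun j => max (bP k p j).natAbs 1) (Finset.mem_univ _)
      have e2 : (bP k p (Fin.castAdd k 0)).natAbs = p := by
        rw [bP, Fin.append_left]; simp
      rw [e2, max_eq_left (by omega : 1 ≤ p)] at e1
      unfold maxB
      exact_mod_cast e1
    have hlog : 1 ≤ Real.log (size (aP k p c d) (bP k p)) := by
      rw [Real.le_log_iff_exp_le hXpos]
      have e3 : (9 : ℝ) ≤ p := by exact_mod_cast hp9
      linarith [Real.exp_one_lt_d9]
    have hll : 0 ≤ Real.log (Real.log (size (aP k p c d) (bP k p))) := Real.log_nonneg hlog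
    gcongr

/-- **Theorem.** Let `form a b = Λ = ∑ b_j log a_j`, `size a b = X = ∏ B_j A_j ^ 2`, `maxB b = B`.
(1) For all odd `p` and `m = 2 j + 1` there is a positive rational number `c`, of height `A`, with
`0 < m log ((p + 2) / p) + 2 log c ≤ 2 / (p ^ m A ^ 2)`.
(2) For every `n ≥ 2` there are `n` positive rational numbers `a_j` and nonzero integers `b_j` with
arbitrarily large `X`, with `Λ ≠ 0` and `|Λ| ≤ 54 (B / X) (log log X / log X)`.
(3) So for all `n ≥ 2`, `κ < 1` and `C > 0` there are such numbers with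
`|Λ| < C ^ n B / (X (log X) ^ κ)`. -/
theorem result :
    (∀ p j : ℕ, Odd p → ∃ c : ℚ, 0 < c ∧
      0 < ((2 * j + 1 : ℕ) : ℝ) * Real.log (((p : ℝ) + 2) / p) + 2 * Real.log (c : ℝ) ∧
      ((2 * j + 1 : ℕ) : ℝ) * Real.log (((p : ℝ) + 2) / p) + 2 * Real.log (c : ℝ) ≤
        2 / ((p : ℝ) ^ (2 * j + 1) * ((max c.num.natAbs c.den : ℕ) : ℝ) ^ 2)) ∧
    (∀ n : ℕ, 2 ≤ n → ∀ H : ℝ, ∃ (a : Fin n → ℚ) (b : Fin n → ℤ), (∀ j, 0 < a j) ∧
      (∀ j, b j ≠ 0) ∧ H < size a b ∧ form a b ≠ 0 ∧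
      |form a b| ≤ 54 * maxB b / size a b * (Real.log (Real.log (size a b)) / Real.log (size a b))) ∧
    (∀ n : ℕ, 2 ≤ n → ∀ κ C H : ℝ, κ < 1 → 0 < C → ∃ (a : Fin n → ℚ) (b : Fin n → ℤ),
      (∀ j, 0 < a j) ∧ (∀ j, b j ≠ 0) ∧ H < size a b ∧ form a b ≠ 0 ∧
      |form a b| < C ^ n * maxB b / (size a b * Real.log (size a b) ^ κ)) := by
  have part2 : ∀ n : ℕ, 2 ≤ n → ∀ H : ℝ, ∃ (a : Fin n → ℚ) (b : Fin n → ℤ), (∀ j, 0 < a j) ∧
      (∀ j, b j ≠ 0) ∧ H < size a b ∧ form a b ≠ 0 ∧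
      |form a b| ≤ 54 * maxB b / size a b *
        (Real.log (Real.log (size a b)) / Real.log (size a b)) := by
    intro n hn H
    obtain ⟨k, rfl⟩ : ∃ k, n = 2 + k := ⟨n - 2, by omega⟩
    exact main k H
  refine ⟨?_, part2, ?_⟩
  · intro p j hp
    obtain ⟨c, d, hd, hdc, heq, -⟩ := Pool.Agent.H17.LL.sol p hp j
    have hc : 1 ≤ c := hd.trans hdc
    have hb := Pool.Agent.H17.LL.form_bounds p (2 * j + 1) c d hp.pos hc hd heq
    have h2 := height_div_le d c hd hc c hdc le_rfl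
    have h2' := one_le_height ((d : ℚ) / c)
    have hdq : (0 : ℚ) < d := by exact_mod_cast hd
    have hcq : (0 : ℚ) < c := by exact_mod_cast hc
    have hpR : (0 : ℝ) < p := by exact_mod_cast hp.pos
    refine ⟨(d : ℚ) / c, by positivity, ?_, ?_⟩
    · push_cast
      have := hb.1
      push_cast at this
      exact this
    · have e := hb.2
      push_cast at e ⊢
      refine e.trans ?_
      have v1 : (1 : ℝ) ≤ ((max ((d : ℚ) / c).num.natAbs ((d : ℚ) / c).den : ℕ) : ℝ) := by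
        exact_mod_cast h2'
      have v2 : ((max ((d : ℚ) / c).num.natAbs ((d : ℚ) / c).den : ℕ) : ℝ) ≤ c := by
        exact_mod_cast h2
      push_cast at v1 v2
      gcongr
  · intro n hn κ C H hκ hC
    -- `log y / y ^ (1 - κ) → 0`
    have hlim : Tendsto (fun y : ℝ => Real.log y / y ^ (1 - κ)) atTop (nhds 0) :=
      (isLittleO_log_rpow_atTop (by linarith : 0 < 1 - κ)).tendsto_div_nhds_zero
    have hCn : 0 < C ^ n / 54 := by positivity
    have hev := (hlim.eventually_lt_const hCn)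
    obtain ⟨Y, hY⟩ := Filter.eventually_atTop.1 hev
    obtain ⟨a, b, h1, h2, h3, h4, h5⟩ := part2 n hn (max H (Real.exp (max Y 1)))
    have hX1 : Real.exp (max Y 1) < size a b := lt_of_le_of_lt (le_max_right _ _) h3
    have hX0 : 0 < size a b := (Real.exp_pos _).trans hX1
    have hlog : max Y 1 < Real.log (size a b) := by
      rw [Real.lt_log_iff_exp_lt hX0]; exact hX1
    have hl0 : 0 < Real.log (size a b) :=
      lt_of_lt_of_le one_pos ((le_max_right _ _).trans hlog.le)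
    have hY' := hY _ ((le_max_left _ _).trans hlog.le)
    refine ⟨a, b, h1, h2, lt_of_le_of_lt (le_max_left _ _) h3, h4, lt_of_le_of_lt h5 ?_⟩
    have hB : 0 < maxB b := by
      have e0 : 1 ≤ (Finset.univ.sup fun j => max (b j).natAbs 1) := by
        have e1 : max (b ⟨0, by omega⟩).natAbs 1 ≤ (Finset.univ.sup fun j => max (b j).natAbs 1) :=
          Finset.le_sup (f := fun j => max (b j).natAbs 1) (Finset.mem_univ _)
        exact le_trans (le_max_right _ _) e1
      unfold maxB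
      exact_mod_cast e0
    have hpw : 0 < Real.log (size a b) ^ κ := Real.rpow_pos_of_pos hl0 _
    have hpw2 : 0 < Real.log (size a b) ^ (1 - κ) := Real.rpow_pos_of_pos hl0 _
    have hsplit : Real.log (size a b) = Real.log (size a b) ^ κ * Real.log (size a b) ^ (1 - κ) := by
      rw [← Real.rpow_add hl0]; simp
    rw [div_lt_iff₀ hpw2] at hY'
    have e1 : Real.log (Real.log (size a b)) / Real.log (size a b) < C ^ n / 54 / Real.log (size a b) ^ κ := by
      rw [div_lt_div_iff₀ hl0 hpw]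
      calc Real.log (Real.log (size a b)) * Real.log (size a b) ^ κ
          < (C ^ n / 54 * Real.log (size a b) ^ (1 - κ)) * Real.log (size a b) ^ κ :=
            mul_lt_mul_of_pos_right hY' hpw
        _ = C ^ n / 54 * (Real.log (size a b) ^ κ * Real.log (size a b) ^ (1 - κ)) := by ring
        _ = C ^ n / 54 * Real.log (size a b) := by rw [← hsplit]
    have e2 : 0 < 54 * maxB b / size a b := by positivity
    calc _ < 54 * maxB b / size a b * (C ^ n / 54 / Real.log (size a b) ^ κ) :=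
          mul_lt_mul_of_pos_left e1 e2
      _ = C ^ n * maxB b / (size a b * Real.log (size a b) ^ κ) := by field_simp

end Pool.Agent.Results.MP_90c6bd_nt.LogarithmicLoss
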