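import Pool.Agent.H99.LG.Dim3

/-!
# Lang's inequality for the linear forms in one generic logarithm and logarithms of rational numbers

For `ε > 0` the set of all real `α > 0` for which Lang's lower bound, in the form of the conjecture (a constant
`C(ε) ^ n`, all numbers of logarithms, all positive rationals, all integral coefficients), fails for the
linear forms in `log α`, `log a₁`, …, `log aₙ` in which the coefficient of `log α` is not `0` has Hausdorff
dimension at most `1 / (1 + ε)`; for almost every `α > 0` the bound holds for all `ε > 0`.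
-/

set_option autoImplicit false

open MeasureTheory

namespace Pool.Agent.Results.MP_90c6bd_nt.OneGenericNumber

/-- With `Λ = b₀ log α + ∑ b_j log a_j` (`b₀ ≠ 0`, `a_j > 0` rational), `B_j = max (|b_j|, 1)`,
`B = max B_j`, `A_j = max (num a_j, den a_j)`: for all `ε > 0` the set of all `α > 0` such that no `C > 0`
satisfies `|Λ| > C ^ (n + 1) B / (B₀ ∏ B_j ∏ A_j ²) ^ (1 + ε)` for all `n ≥ 0`, `a`, `b₀`, `b` has Hausdorff
dimension at most `1 / (1 + ε)`; and for almost every `α > 0` there is such a `C` for every `ε > 0`. -/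
theorem result : (∀ ε : ℝ, 0 < ε → dimH {α : ℝ | 0 < α ∧ ¬ ∃ C : ℝ, 0 < C ∧
    ∀ (n : ℕ) (a : Fin n → ℚ) (b₀ : ℤ) (b : Fin n → ℤ), (∀ j, 0 < a j) → b₀ ≠ 0 →
      C ^ (n + 1) *
          ((max (max b₀.natAbs 1) (Finset.univ.sup fun j => max (b j).natAbs 1) : ℕ) : ℝ) /
          (((max b₀.natAbs 1 : ℕ) : ℝ) * (∏ j, ((max (b j).natAbs 1 : ℕ) : ℝ)) *
            ∏ j, ((max (a j).num.natAbs (a j).den : ℕ) : ℝ) ^ 2) ^ (1 + ε) <
        |(b₀ : ℝ) * Real.log α + ∑ j, (b j : ℝ) * Real.log (a j : ℝ)|} ≤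
      ENNReal.ofReal (1 / (1 + ε))) ∧
    ∀ᵐ α : ℝ, 0 < α → ∀ ε : ℝ, 0 < ε → ∃ C : ℝ, 0 < C ∧
    ∀ (n : ℕ) (a : Fin n → ℚ) (b₀ : ℤ) (b : Fin n → ℤ), (∀ j, 0 < a j) → b₀ ≠ 0 →
      C ^ (n + 1) *
          ((max (max b₀.natAbs 1) (Finset.univ.sup fun j => max (b j).natAbs 1) : ℕ) : ℝ) /
          (((max b₀.natAbs 1 : ℕ) : ℝ) * (∏ j, ((max (b j).natAbs 1 : ℕ) : ℝ)) *
            ∏ j, ((max (a j).num.natAbs (a j).den : ℕ) : ℝ) ^ 2) ^ (1 + ε) <
        |(b₀ : ℝ) * Real.log α + ∑ j, (b j : ℝ) * Real.log (a j : ℝ)| :=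
  ⟨fun _ hε => Pool.Agent.H99.LG.mainDim hε, Pool.Agent.H99.LG.main⟩

end Pool.Agent.Results.MP_90c6bd_nt.OneGenericNumber
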